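import Pool.Agent.J4H40.Yn

/-!
# ALL residue classes of the regular moduli: two primes for `q ≤ x ^ (5 / 6 - ρ)`, a prime and a product for `q ≤ x ^ (1 - ρ)`, and arbitrary first summands

For all large `N` there is a set `D` of at most `(log N) ^ k` integers, all of them larger than any given power
of `log N`, such that for every modulus `q` which is not divisible by a member of `D` and EVERY residue class
`a` modulo `q`, without any condition on `gcd(a, q)` (for instance `a = 0`: the multiples of `q`), each of the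
following assertions holds for all but at most `N / (q (log N)^A)` integers `n ≤ N`, `n ≡ a (mod q)`.

For `q ≤ N ^ (5 / 6 - ρ)`:
(i) the lower bound of the problem with `δ = 1 / 8`, if `n` is even: `g n ≥ (1 / 8) HL n`, and every interval
`(y₁, y₂]`, `y₂ ≤ n`, of length at least `n / (log n)^A` contains at least one eighth of the expected number of
the primes `p` with `n - p` prime;
(ii) for an ARBITRARY first summand `0 ≤ F(b) ≤ log N` (for instance the indicator function of an arbitrary
set): `∑ F(b) Λ(n - b) ≥ (13 / 100) ∑ F(b) Λ_z(n - b) - N / (log N)^A`, where `b` runs through any interval and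
`Λ_z` is the sieve model of the primes: the normalized indicator function of the integers without prime factors
up to `z = (log N)^E`.

For `q ≤ N ^ (1 - ρ)`:
(iii) `n` (if even) has at least `M HL n` representations `n = p + p₁ p₂` with primes `p, p₁, p₂`, `p₁ ≤ n ^ ρ`;
(iv) for arbitrary real coefficients `|c(m)| ≤ 1` supported on the integers `N ^ κ < m ≤ N ^ σ` without prime
factors up to `N ^ κ` the weighted number of the solutions of `b + m k = n` satisfies the expected asymptotic
formula (if `n` is even);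
(v) for an ARBITRARY complex first summand `|F(b)| ≤ log N` the convolution of `c` with `Λ` can be replaced by
its density times the sieve model: `∑ F(b) (∑ c(m) Λ(k) - (∑ c(m) / m) Λ_z(n - b)) = O(N / (log N)^A)`, where
`m k = n - b` and `b ≤ y`, for all `y < n`.

The set `D` does not depend on `q`, on the class, or on the first summand.

Definitions used (in `Pool.Agent.H560R3.GB`): `g n`: the number of ordered pairs of primes `(p₁, p₂)` with
`p₁ + p₂ = n`; `sing n = 2 C₂ ∏_{p ∣ n, p > 2} (p - 1) / (p - 2)` with `C₂ = ∏_{p > 2} (1 - 1 / (p - 1) ^ 2)`,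
and `HL n = sing n * (n / (log n)²)`.

Proof (`J4H40`, `Ya` to `Yn`). The minorant of `Λ` of the hand-in EveryModulusFiveSixths and the convolution of
the hand-in PrimePlusTwoPrimes, minus their sieve models, are small in mean square on the minor arcs and, for
all but few characters, on the major arcs. Here the bad characters are counted over all moduli at the same
time: by a large sieve inequality for primitive characters at most `(log N) ^ k` primitive characters are bad
(a power of the short variable of the bilinear sums is as long as the square of the largest modulus), and `D`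
consists of their conductors divided by small integers. For a modulus which is not divisible by a member of
`D` there are no bad characters of a large conductor, so that no property of the first summand is needed.
-/

set_option autoImplicit false

namespace Pool.Agent.Results.MP_dd84fd_nt.AllClassesOfRegularModuli

open Finset
open ArithmeticFunction (vonMangoldt)
open Pool.Agent.H560R3.GB (g sing HL)

open Classical in
/-- All but at most `N / (q (log N)^A)` of the integers `1 ≤ n ≤ N`, `n ≡ a (mod q)`, have the property `P`. -/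
def AlmostAll (N q a A : ℕ) (P : ℕ → Prop) : Prop :=
  (({n ∈ Icc 1 N | n ≡ a [MOD q] ∧ ¬ P n}.card : ℕ) : ℝ) ≤ (N : ℝ) / (q * Real.log N ^ A)

/-- At least one eighth of the expected number of representations, in all intervals of length at least
`n / (log n)^A`. -/
def LowerBounds (A n : ℕ) : Prop :=
  (1 / 8) * HL n ≤ g n ∧
  ∀ y₁ y₂ : ℕ, y₁ < y₂ → y₂ ≤ n → (n : ℝ) / Real.log n ^ A ≤ (y₂ : ℝ) - y₁ →
    (1 / 8) * (sing n * ((y₂ : ℝ) - y₁) / Real.log n ^ 2) ≤
      ((Ioc y₁ y₂).filter (fun p => p.Prime ∧ (n - p).Prime)).card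

/-- The sieve model: `∏_{p ≤ z} (1 - 1 / p)⁻¹` if `n` has no prime factor `p ≤ z`, and `0` otherwise. -/
noncomputable def model (z n : ℕ) : ℝ :=
  if ∀ p ∈ (Icc 1 z).filter Nat.Prime, ¬ p ∣ n then (∏ p ∈ (Icc 1 z).filter Nat.Prime, (1 - 1 / (p : ℝ)))⁻¹ else 0

/-- Coefficients bounded by one, supported on the integers `N ^ κ < m ≤ N ^ σ` all of whose prime factors are
larger than `N ^ κ`. -/
structure Coefficients (N : ℕ) (κ σ : ℝ) (c : ℕ → ℝ) : Prop where
  le_one : ∀ m, |c m| ≤ 1
  support : ∀ m, c m ≠ 0 →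
    (N : ℝ) ^ κ < m ∧ (m : ℝ) ≤ (N : ℝ) ^ σ ∧ ∀ p ∈ m.primeFactors, (N : ℝ) ^ κ < p

/-- The convolution of the coefficients with the function of von Mangoldt. -/
noncomputable def conv (c : ℕ → ℝ) (n : ℕ) : ℝ := ∑ m ∈ n.divisors, c m * vonMangoldt (n / m)

open Classical in
/-- The number of the pairs `(p₁, p₂)` of primes such that `p₁ ≤ n ^ ρ`, `p₁ p₂ < n` and `n - p₁ p₂` is a prime. -/
noncomputable def r₂ (ρ : ℝ) (n : ℕ) : ℕ :=
  ((Icc 1 n ×ˢ Icc 1 n).filter fun x : ℕ × ℕ =>
    x.1.Prime ∧ x.2.Prime ∧ (x.1 : ℝ) ≤ (n : ℝ) ^ ρ ∧ x.1 * x.2 < n ∧ (n - x.1 * x.2).Prime).card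

theorem cnt_eq (n : ℕ) : ((Ioc 0 n).filter (fun p => p.Prime ∧ (n - p).Prime)).card = g n := by
  unfold g
  refine card_bij (fun p _ => (p, n - p)) ?_ ?_ ?_
  · intro p hp
    rw [mem_filter, mem_Ioc] at hp
    rw [mem_filter, HasAntidiagonal.mem_antidiagonal]
    exact ⟨by simp only; omega, hp.2⟩
  · intro p _ p' _ h
    exact congrArg Prod.fst h
  · rintro ⟨a, b⟩ h
    rw [mem_filter, HasAntidiagonal.mem_antidiagonal] at h
    obtain ⟨h1, h2, h3⟩ := h
    simp only at h1 h2 h3
    have ha := h2.pos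
    refine ⟨a, ?_, ?_⟩
    · rw [mem_filter, mem_Ioc]
      refine ⟨⟨ha, by omega⟩, h2, ?_⟩
      have : n - a = b := by omega
      rw [this]
      exact h3
    · have : n - a = b := by omega
      simp [this]

/-- Let `0 < κ`, `0 < σ < ρ`, `σ ≤ 1 / 2`. There is `k` such that for all `B`, all sufficiently large `E` and
all sufficiently large `N`, for all coefficients `c` as above, there is a set `D` of at most `(log N) ^ k`
integers larger than `(log N) ^ B` such that for every modulus `q ≥ 1` which is not divisible by a member of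
`D` and EVERY class `a`, with `z = ⌈(log N)^E⌉`:

if `q ≤ N ^ (5 / 6 - ρ)`, then (i) almost all even integers in the class satisfy `LowerBounds`, and (ii) for
every `F` with values in `[0, log N]` almost all integers `n` in the class satisfy
`∑ F(b) Λ(n - b) ≥ (13 / 100) ∑ F(b) Λ_z(n - b) - N / (log N)^A` for the sums over every interval
`y₁ < b ≤ y₂ < n`;

if `q ≤ N ^ (1 - ρ)`, then (iii) almost all even integers in the class have at least `M * HL n` representations
as a sum of a prime and a product of two primes one of which is at most `n ^ ρ`, (iv) almost all even integers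
in the class satisfy the asymptotic formula for the sums `∑ Λ(b) (c * Λ)(n - b)` over `b ≤ y`, for all `y < n`,
and (v) for every complex `F` with `|F| ≤ log N` almost all integers `n` in the class satisfy
`∑ F(b) ((c * Λ)(n - b) - (∑ c(m) / m) Λ_z(n - b)) ≤ N / (log N)^A` in absolute value, for the sums over
`b ≤ y`, for all `y < n`. -/
theorem result (κ σ ρ : ℝ) (hκ : 0 < κ) (hσ : 0 < σ) (hσρ : σ < ρ) (hσ2 : σ ≤ 1 / 2) (A M : ℕ) :
    ∃ k : ℕ, ∀ B : ℕ, ∃ E₀ : ℕ, ∀ E : ℕ, E₀ ≤ E → ∃ N₀ : ℕ, ∀ N : ℕ, N₀ ≤ N →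
      ∀ c : ℕ → ℝ, Coefficients N κ σ c →
      ∃ D : Finset ℕ, (D.card : ℝ) ≤ Real.log N ^ k ∧ (∀ d ∈ D, Real.log N ^ B < (d : ℝ)) ∧
      ∀ q : ℕ, 1 ≤ q → (∀ d ∈ D, ¬ d ∣ q) → ∀ a : ℕ,
        ((q : ℝ) ≤ (N : ℝ) ^ (5 / 6 - ρ) →
          AlmostAll N q a A (fun n => 2 ∣ n → LowerBounds A n) ∧
          ∀ F : ℕ → ℝ, (∀ b ∈ Icc 1 N, 0 ≤ F b ∧ F b ≤ Real.log N) →
            AlmostAll N q a A (fun n => ∀ y₁ y₂ : ℕ, y₁ ≤ y₂ → y₂ < n →
              (13 / 100) * ∑ b ∈ Ioc y₁ y₂, F b * model ⌈Real.log N ^ E⌉₊ (n - b) - N / Real.log N ^ A ≤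
                ∑ b ∈ Ioc y₁ y₂, F b * vonMangoldt (n - b))) ∧
        ((q : ℝ) ≤ (N : ℝ) ^ (1 - ρ) →
          AlmostAll N q a A (fun n => 2 ∣ n → (M : ℝ) * HL n ≤ r₂ ρ n) ∧
          AlmostAll N q a A (fun n => 2 ∣ n → ∀ y : ℕ, y < n →
            |∑ b ∈ Icc 1 y, vonMangoldt b * conv c (n - b) - sing n * (∑ m ∈ Icc 1 N, c m / m) * y| ≤
              N / Real.log N ^ A) ∧
          ∀ F : ℕ → ℂ, (∀ b ∈ Icc 1 N, ‖F b‖ ≤ Real.log N) →
            AlmostAll N q a A (fun n => ∀ y : ℕ, y < n →
              ‖∑ b ∈ Icc 1 y, F b *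
                ((conv c (n - b) - (∑ m ∈ Icc 1 N, c m / m) * model ⌈Real.log N ^ E⌉₊ (n - b) : ℝ) : ℂ)‖ ≤
                N / Real.log N ^ A)) := by
  classical
  obtain ⟨k, h⟩ := Pool.Agent.J4H40.allReg hκ hσ hσρ hσ2 A M
  refine ⟨k, fun B => ?_⟩
  obtain ⟨E₀, h⟩ := h B
  refine ⟨E₀, fun E hE => ?_⟩
  obtain ⟨N₀, h⟩ := h E hE
  refine ⟨N₀, fun N hN c hc => ?_⟩
  obtain ⟨D, hD1, hD2, h⟩ := h N hN c ⟨hc.le_one, hc.support⟩
  refine ⟨D, hD1, hD2, fun q hq hqD a => ?_⟩
  obtain ⟨h1, h2⟩ := h q hq hqD a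
  have mono : ∀ P Q : ℕ → Prop, (∀ n ∈ Icc 1 N, P n → Q n) → Pool.Agent.J4H40.Few N q a A P →
      AlmostAll N q a A Q := by
    intro P Q hPQ hP
    unfold AlmostAll
    unfold Pool.Agent.J4H40.Few at hP
    refine le_trans ?_ hP
    exact_mod_cast card_le_card fun n hn => by
      rw [mem_filter] at hn ⊢
      exact ⟨hn.1, hn.2.1, fun hp => hn.2.2 (hPQ n hn.1 hp)⟩
  refine ⟨fun hqN => ?_, fun hqN => ?_⟩
  · obtain ⟨a1, a2⟩ := h1 hqN
    refine ⟨mono _ _ (fun n hn h h2n => ?_) a2, fun F hF => mono _ _ (fun n _ h => h) (a1 F hF)⟩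
    obtain ⟨hlog, hw⟩ := h h2n
    refine ⟨?_, fun y₁ y₂ g1 g2 g3 => hw y₁ y₂ g1 g2 g3⟩
    have h1 := hw 0 n (mem_Icc.1 hn).1 le_rfl (by
      rw [Nat.cast_zero, sub_zero]
      exact div_le_self (Nat.cast_nonneg _) (one_le_pow₀ hlog))
    unfold Pool.Agent.W93.PG.cnt at h1
    rw [cnt_eq, Nat.cast_zero, sub_zero] at h1
    refine le_trans (le_of_eq ?_) h1
    unfold HL
    ring
  · obtain ⟨a1, a2, a3⟩ := h2 hqN
    exact ⟨mono _ _ (fun n _ h => h) a3, mono _ _ (fun n _ h => h) a2, fun F hF => mono _ _ (fun n _ h => h) (a1 F hF)⟩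

end Pool.Agent.Results.MP_dd84fd_nt.AllClassesOfRegularModuli
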