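import Pool.Agent.J4H32.MV.Sz4

/-!
# Szemerédi's theorem inside the simultaneous Goldbach representations, for all but `X ^ (k - o (1))` vectors

For all `k`, `A`, `J` and `η > 0` there is `B` such that for `X` in arbitrarily long ranges and all but few of the admissible
vectors `(N_1, ..., N_k)` with entries in `(3 X, 4 X]`: every subset `S` with at least the `η`-th part of the primes `p` in
`(X, 2 X]` for which all the `N_i - p` are prime has a difference `1 ≤ d ≤ (log X) ^ B` such that for at least `X ^ (99 / 100)`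
elements `a` of `S` the progression `a, a + d, ..., a + J d` lies in `S`.

Method (helper32; library parts by helpers 6, 17, 18, 19, 57, 68, 73, 79, 81, 98, 843 and 256): the asymptotic formula for the
number of the primes `p` for all but few vectors (a comparison with a truncated singular series at scales without zeros near one)
shows that they have positive density inside the set sifted by the small primes; Szemerédi's theorem relative to such sifted sets
is then applied to the subset in short windows (helper73). The local densities of the sifted set are bounded by those of the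
singular series.
-/

set_option autoImplicit false

namespace Pool.Agent.Results.MP_dd84fd_nt.GoldbachProgressions

open Finset Filter

open Classical in
/-- The set of the primes `p` with `X < p ≤ 2 X` such that every `N_i` is the sum of `p` and a prime. -/
noncomputable def representations {k : ℕ} (N : Fin k → ℕ) (X : ℕ) : Finset ℕ :=
  (Ioc X (2 * X)).filter (fun p => p.Prime ∧ ∀ i, ∃ q : ℕ, q.Prime ∧ p + q = N i)

/-- There is no local obstruction: for every prime `q` there is an integer `r` such that `q` divides none of the integers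
`r, N_1 - r, ..., N_k - r`. (For `k = 1` this says that `N_1` is even.) -/
def Admissible {k : ℕ} (N : Fin k → ℕ) : Prop :=
  ∀ q : ℕ, q.Prime → ∃ r : ℤ, ¬ (q : ℤ) ∣ r ∧ ∀ i, ¬ (q : ℤ) ∣ (N i : ℤ) - r

/-- The number of the progressions `a, a + d, ..., a + J d` in `S` with difference `d`. -/
def progressions (S : Finset ℕ) (J d : ℕ) : ℕ := (S.filter (fun a => ∀ j ≤ J, a + j * d ∈ S)).card

/-- The exceptional vectors: admissible, with entries in `(3 X, 4 X]`, for which some subset `S` of `representations N X` with at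
least `η |representations N X|` elements has no difference `1 ≤ d ≤ (log X) ^ B` with at least `X ^ (99 / 100)` progressions
`a, a + d, ..., a + J d` in `S`. -/
def exceptional (k J B : ℕ) (η : ℝ) (X : ℕ) : Set (Fin k → ℕ) :=
  {N | (∀ i, 3 * X < N i ∧ N i ≤ 4 * X) ∧ Admissible N ∧
    ∃ S ⊆ representations N X, η * (representations N X).card ≤ S.card ∧
      ¬ ∃ d : ℕ, 1 ≤ d ∧ (d : ℝ) ≤ Real.log X ^ B ∧ (X : ℝ) ^ (99 / 100 : ℝ) ≤ (progressions S J d : ℝ)}

/-- For all `k`, `A`, `J` and `η > 0` there is `B` such that there are arbitrarily large `Y` such that for every `X` with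
`Y ≤ X ≤ Y ^ ((log log Y) ^ A)` there are at most `X ^ k exp (-log X / (log log X) ^ (A + 6))` exceptional vectors. -/
theorem result (k A J : ℕ) (η : ℝ) (hη : 0 < η) : ∃ B : ℕ, ∀ Y₀ : ℝ, ∃ Y : ℝ, Y₀ ≤ Y ∧
    ∀ X : ℕ, Y ≤ X → (X : ℝ) ≤ Y ^ (Real.log (Real.log Y) ^ A) →
      ((exceptional k J B η X).ncard : ℝ) ≤ (X : ℝ) ^ k * Real.exp (-(Real.log X / Real.log (Real.log X) ^ (A + 6))) := by
  classical
  obtain ⟨B, hB⟩ := Pool.Agent.J4H32.MV.scGY k A J (fun _ => true) η hη
  refine ⟨B, fun Y₀ => ?_⟩
  obtain ⟨Y, hY, hYX⟩ := hB Y₀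
  refine ⟨Y, hY, fun X h1 h2 => ?_⟩
  refine le_trans (le_of_eq ?_) (hYX X h1 h2)
  congr 1
  rw [← Set.ncard_coe_finset]
  congr 1
  ext N
  have hadm : Admissible N ↔ Pool.Agent.J4H81.GB.AdX (fun _ => true) N := by
    unfold Admissible Pool.Agent.J4H81.GB.AdX
    refine forall_congr' fun q => forall_congr' fun hq => ?_
    have hq0 : (q : ℤ) ≠ 0 := by exact_mod_cast hq.ne_zero
    constructor
    · rintro ⟨r, h1, h2⟩
      have hr0 : 0 ≤ r % q := Int.emod_nonneg r hq0
      obtain ⟨s, hs⟩ := Int.eq_ofNat_of_zero_le hr0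
      have hd : r = q * (r / q) + s := by
        have := Int.mul_ediv_add_emod r q
        omega
      refine ⟨s, fun j => ?_⟩
      refine Fin.cases ?_ (fun i => ?_) j
      · intro h3
        apply h1
        rw [hd]
        have e : (s : ℤ) + Pool.Agent.J4H81.GB.es (fun _ => true) N 0 = s := by
          show (s : ℤ) + 0 = s
          ring
        rw [e] at h3
        exact dvd_add (dvd_mul_right _ _) h3
      · intro h3
        apply h2 i
        have e0 : Pool.Agent.J4H81.GB.es (fun _ => true) N i.succ = -(N i : ℤ) := by simp [Pool.Agent.J4H81.GB.es]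
        rw [e0] at h3
        have e : (N i : ℤ) - r = -((s : ℤ) + -(N i : ℤ)) - q * (r / q) := by linarith
        rw [e]
        exact dvd_sub (h3.neg_right) (dvd_mul_right _ _)
    · rintro ⟨r, h1⟩
      refine ⟨(r : ℤ), ?_, fun i => ?_⟩
      · intro h3
        apply h1 0
        have e : (r : ℤ) + Pool.Agent.J4H81.GB.es (fun _ => true) N 0 = r := by
          show (r : ℤ) + 0 = r
          ring
        rw [e]
        exact h3
      · intro h3
        apply h1 i.succ
        have e0 : Pool.Agent.J4H81.GB.es (fun _ => true) N i.succ = -(N i : ℤ) := by simp [Pool.Agent.J4H81.GB.es]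
        rw [e0]
        have e : (r : ℤ) + -(N i : ℤ) = -((N i : ℤ) - r) := by ring
        rw [e]
        exact h3.neg_right
  have hrep : (∀ i, 3 * X < N i ∧ N i ≤ 4 * X) → representations N X = Pool.Agent.J4H32.MV.PX (fun _ => true) N X := by
    intro hN
    unfold representations Pool.Agent.J4H32.MV.PX
    apply filter_congr
    intro p hp
    have hpX := (Finset.mem_Ioc.1 hp).2
    constructor
    · rintro ⟨h1, h2⟩ j
      refine Fin.cases ?_ (fun i => ?_) j
      · rw [Pool.Agent.J4H32.MV.fj_zero]
        exact h1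
      · rw [Pool.Agent.J4H32.MV.fj_true N p (i := i) rfl]
        obtain ⟨q, hq, he⟩ := h2 i
        have e : N i - p = q := by omega
        rw [e]
        exact hq
    · intro h
      refine ⟨by simpa only [Pool.Agent.J4H32.MV.fj_zero] using h 0, fun i => ?_⟩
      have h2 := h i.succ
      rw [Pool.Agent.J4H32.MV.fj_true N p (i := i) rfl] at h2
      have h3 := hN i
      exact ⟨N i - p, h2, by omega⟩
  have hgood : (∀ i, 3 * X < N i ∧ N i ≤ 4 * X) → ((∃ S ⊆ representations N X, η * (representations N X).card ≤ S.card ∧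
      ¬ ∃ d : ℕ, 1 ≤ d ∧ (d : ℝ) ≤ Real.log X ^ B ∧ (X : ℝ) ^ (99 / 100 : ℝ) ≤ (progressions S J d : ℝ)) ↔
      ¬ Pool.Agent.J4H32.MV.GoodSc (fun _ => true) N X J B η) := by
    intro hN
    unfold Pool.Agent.J4H32.MV.GoodSc
    rw [← hrep hN]
    constructor
    · rintro ⟨S, hS, hc, hn⟩ hg
      exact hn (hg S hS hc)
    · intro h
      by_contra hcon
      apply h
      intro S hS hc
      by_contra hn
      exact hcon ⟨S, hS, hc, hn⟩
  have hrg : ∀ i, N i ∈ Pool.Agent.J4H32.MV.rgX true X ↔ 3 * X < N i ∧ N i ≤ 4 * X := by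
    intro i
    show N i ∈ Finset.Ioc (3 * X) (4 * X) ↔ _
    rw [Finset.mem_Ioc]
  rw [Finset.mem_coe, Finset.mem_filter, Fintype.mem_piFinset, ← hadm]
  simp only [exceptional, Set.mem_ofPred_eq]
  constructor
  · rintro ⟨h1, h2, h3⟩
    exact ⟨fun i => (hrg i).2 (h1 i), h2, (hgood h1).1 h3⟩
  · rintro ⟨h1, h2, h3⟩
    have h4 : ∀ i, 3 * X < N i ∧ N i ≤ 4 * X := fun i => (hrg i).1 (h1 i)
    exact ⟨h4, h2, (hgood h4).2 h3⟩

end Pool.Agent.Results.MP_dd84fd_nt.GoldbachProgressions
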