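import Pool.Agent.J4H81.GB.Main

/-!
# Simultaneous Goldbach representations with a common prime, for all but few vectors of even numbers

For every `k` and every large `X`, all but at most `X ^ k exp (- log X / (log log X) ^ 13)` of the admissible vectors
`(N_1, ..., N_k)` with entries in `(X, 2 X]` have at least `X exp (- log X / (log log X) ^ 4)` primes `p ≤ X` for which all
the numbers `N_1 - p, ..., N_k - p` are prime.

Method (helper81, with parts by helpers 17, 84, 98, after the project MV of helper32 and its provers): the circle method in
residue classes modulo a primorial `W` (zero-free regions, repulsion by an exceptional zero, large sieve), in which the primes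
have a simple model, a truncated singular series. The product of the `k + 1` prime weights is compared with the product of the
models by telescoping, where the weights of the `N_i - p` are reflected (the model is even); each term is a Fourier coefficient
in one of the `N_i`, small on the major arcs by an energy bound and outside few vectors on the minor arcs by Bessel's inequality.
-/

set_option autoImplicit false

namespace Pool.Agent.Results.MP_dd84fd_nt.SimultaneousGoldbach

open Finset Filter

open Classical in
/-- The number of the primes `p ≤ X` such that every `N_i` is the sum of `p` and a prime. -/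
noncomputable def count {k : ℕ} (N : Fin k → ℕ) (X : ℕ) : ℕ :=
  ((Icc 1 X).filter (fun p => p.Prime ∧ ∀ i, ∃ q : ℕ, q.Prime ∧ p + q = N i)).card

/-- There is no local obstruction: for every prime `q` there is an integer `r` such that `q` divides none of the integers
`r, N_1 - r, ..., N_k - r`. (For `k = 1` this says that `N_1` is even.) -/
def Admissible {k : ℕ} (N : Fin k → ℕ) : Prop :=
  ∀ q : ℕ, q.Prime → ∃ r : ℤ, ¬ (q : ℤ) ∣ r ∧ ∀ i, ¬ (q : ℤ) ∣ (N i : ℤ) - r

/-- The exceptional vectors: admissible, with entries in `(X, 2 X]` and fewer than `X exp (- log X / (log log X) ^ 4)` primes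
`p ≤ X` such that every `N_i` is the sum of `p` and a prime. -/
def exceptional (k X : ℕ) : Set (Fin k → ℕ) :=
  {N | (∀ i, X < N i ∧ N i ≤ 2 * X) ∧ Admissible N ∧
    (count N X : ℝ) < X * Real.exp (-(Real.log X / Real.log (Real.log X) ^ 4))}

/-- For every `k` and every large `X` there are at most `X ^ k exp (- log X / (log log X) ^ 13)` exceptional vectors. -/
theorem result (k : ℕ) : ∀ᶠ X : ℕ in atTop,
    ((exceptional k X).ncard : ℝ) ≤ (X : ℝ) ^ k * Real.exp (-(Real.log X / Real.log (Real.log X) ^ 13)) := by
  classical
  filter_upwards [Pool.Agent.J4H81.GB.main k] with X hX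
  refine le_trans (le_of_eq ?_) hX
  congr 1
  rw [← Set.ncard_coe_finset]
  congr 1
  ext N
  have hadm : Admissible N ↔ Pool.Agent.J4H81.GB.AdG N := by
    unfold Admissible Pool.Agent.J4H81.GB.AdG
    refine forall_congr' fun q => forall_congr' fun hq => ?_
    constructor
    · rintro ⟨r, h1, h2⟩
      have hq0 : (q : ℤ) ≠ 0 := by exact_mod_cast hq.ne_zero
      have hr0 : 0 ≤ r % q := Int.emod_nonneg r hq0
      obtain ⟨s, hs⟩ := Int.eq_ofNat_of_zero_le hr0
      have hd : r = q * (r / q) + s := by
        have := Int.mul_ediv_add_emod r q
        omega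
      refine ⟨s, ?_, fun i => ?_⟩
      · intro h3
        apply h1
        rw [hd]
        exact dvd_add (dvd_mul_right _ _) (by exact_mod_cast h3)
      · intro h3
        apply h2 i
        have e : (N i : ℤ) - r = ((N i : ℤ) - s) - q * (r / q) := by
          calc (N i : ℤ) - r = (N i : ℤ) - (q * (r / q) + s) := by rw [← hd]
            _ = _ := by ring
        rw [e]
        exact dvd_sub h3 (dvd_mul_right _ _)
    · rintro ⟨r, h1, h2⟩
      exact ⟨(r : ℤ), by exact_mod_cast h1, h2⟩
  have hcnt : (∀ i, X < N i ∧ N i ≤ 2 * X) → count N X = Pool.Agent.J4H81.GB.Gn N X := by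
    intro hN
    unfold count Pool.Agent.J4H81.GB.Gn
    congr 1
    apply filter_congr
    intro p hp
    have hpX := (Finset.mem_Icc.1 hp).2
    apply and_congr_right
    intro _
    refine forall_congr' fun i => ?_
    have h1 := (hN i).1
    constructor
    · rintro ⟨q, hq, he⟩
      have e : N i - p = q := by omega
      rw [e]
      exact hq
    · intro h
      exact ⟨N i - p, h, by omega⟩
  rw [Finset.mem_coe, Finset.mem_filter, Fintype.mem_piFinset, ← hadm]
  simp only [exceptional, Set.mem_ofPred_eq, Finset.mem_Ioc]
  constructor
  · rintro ⟨h1, h2, h3⟩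
    exact ⟨h1, h2, by rw [← hcnt h1]; exact h3⟩
  · rintro ⟨h1, h2, h3⟩
    exact ⟨h1, h2, by rw [hcnt h1]; exact h3⟩

end Pool.Agent.Results.MP_dd84fd_nt.SimultaneousGoldbach
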