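import Pool.Agent.J4H81.GB.NuZ

/-!
# The asymptotic formula for simultaneous Goldbach representations, for all but few vectors and `X` in long ranges

For all `k`, `A`, `B` there are arbitrarily large `Y` such that for every `X` with `Y ≤ X ≤ Y ^ ((log log Y) ^ A)` all but at most
`X ^ k exp (- log X / (log log X) ^ (A + B + 4))` of the admissible vectors `(N_1, ..., N_k)` with entries in `(3 X, 4 X]` satisfy:
the number of the primes `p` in `(X, 2 X]` for which all the `N_i - p` are prime differs from the number expected by Hardy and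
Littlewood by at most its `(log log X) ^ B`-th part.

Method (helper32 and helper81, with parts by helpers 6, 17, 18, 19, 57, 68, 79, 98): at a scale without zeros of Dirichlet
`L`-functions near one, the primes in the residue classes modulo a primorial have a simple model, a truncated singular series.
The product of the `k + 1` prime weights is compared with the product of the models by telescoping and Bessel's inequality in
each `N_i`, where the weights of the `N_i - p` are reflected (the model is even); two-sided in each class, and summed.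
-/

set_option autoImplicit false

namespace Pool.Agent.Results.MP_dd84fd_nt.SimultaneousGoldbachFormula

open Finset Filter

open Classical in
/-- The number of the primes `p` with `X < p ≤ 2 X` such that every `N_i` is the sum of `p` and a prime. -/
noncomputable def count {k : ℕ} (N : Fin k → ℕ) (X : ℕ) : ℕ :=
  ((Ioc X (2 * X)).filter (fun p => p.Prime ∧ ∀ i, ∃ q : ℕ, q.Prime ∧ p + q = N i)).card

/-- There is no local obstruction: for every prime `q` there is an integer `r` such that `q` divides none of the integers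
`r, N_1 - r, ..., N_k - r`. (For `k = 1` this says that `N_1` is even.) -/
def Admissible {k : ℕ} (N : Fin k → ℕ) : Prop :=
  ∀ q : ℕ, q.Prime → ∃ r : ℤ, ¬ (q : ℤ) ∣ r ∧ ∀ i, ¬ (q : ℤ) ∣ (N i : ℤ) - r

/-- The number `w (q)` of the residue classes modulo `q` occupied by `0, N_1, ..., N_k`. -/
def classes {k : ℕ} (N : Fin k → ℕ) (q : ℕ) : ℕ := (insert 0 (univ.image (fun i => N i % q))).card

/-- The factor at `q` of the singular series. -/
noncomputable def factor {k : ℕ} (N : Fin k → ℕ) (q : ℕ) : ℝ := (1 - (classes N q : ℝ) / q) / (1 - 1 / (q : ℝ)) ^ (k + 1)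

/-- The expected number `C X / (log X) ^ (k + 1)` with the singular series `C`. -/
noncomputable def expected {k : ℕ} (N : Fin k → ℕ) (X : ℕ) : ℝ :=
  (∏' q : Nat.Primes, factor N q) * X / Real.log X ^ (k + 1)

/-- The exceptional vectors: admissible, with entries in `(3 X, 4 X]`, for which the number of the primes `p` in `(X, 2 X]` such
that every `N_i` is the sum of `p` and a prime differs from the expected number by more than its `(log log X) ^ B`-th part. -/
def exceptional (k B X : ℕ) : Set (Fin k → ℕ) :=
  {N | (∀ i, 3 * X < N i ∧ N i ≤ 4 * X) ∧ Admissible N ∧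
    1 / Real.log (Real.log X) ^ B * expected N X < |(count N X : ℝ) - expected N X|}

theorem classes_eq {k : ℕ} (N : Fin k → ℕ) (q : ℕ) :
    classes N q = Pool.Agent.J4H32.MV.nuZ (Pool.Agent.J4H81.GB.es (fun _ => true) N) q := by
  rw [← Pool.Agent.J4H81.GB.nuZ_neg]
  unfold classes Pool.Agent.J4H32.MV.nuZ
  rw [← card_image_of_injective (insert 0 (univ.image (fun i => N i % q))) (Nat.cast_injective (R := ℤ))]
  congr 1
  ext x
  simp only [Finset.mem_image, Finset.mem_insert, Finset.mem_univ, true_and]
  constructor
  · rintro ⟨y, rfl | ⟨i, rfl⟩, rfl⟩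
    · exact ⟨0, by simp [Pool.Agent.J4H81.GB.es]⟩
    · exact ⟨i.succ, by simp [Pool.Agent.J4H81.GB.es]⟩
  · rintro ⟨j, rfl⟩
    refine Fin.cases ?_ (fun i => ?_) j
    · exact ⟨0, Or.inl rfl, by simp [Pool.Agent.J4H81.GB.es]⟩
    · exact ⟨N i % q, Or.inr ⟨i, rfl⟩, by simp [Pool.Agent.J4H81.GB.es]⟩

theorem factor_eq {k : ℕ} (N : Fin k → ℕ) (q : ℕ) :
    factor N q = Pool.Agent.J4H32.MV.facZ (Pool.Agent.J4H81.GB.es (fun _ => true) N) q := by
  unfold factor Pool.Agent.J4H32.MV.facZ
  rw [classes_eq]

/-- Remark: the product over the primes in `expected` converges for distinct positive `N_i`. (There are few vectors with two equal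
entries; those of them which belong to `exceptional` are included in the bound of `result`.) -/
theorem converges {k : ℕ} (N : Fin k → ℕ) (hN : Function.Injective N) (hN1 : ∀ i, 1 ≤ N i) :
    Multipliable (fun q : Nat.Primes => factor N q) := by
  have hinj : Function.Injective (Pool.Agent.J4H81.GB.es (fun _ => true) N) := by
    unfold Pool.Agent.J4H81.GB.es
    rw [Fin.cons_injective_iff]
    constructor
    · rintro ⟨i, hi⟩
      have h1 := hN1 i
      simp only [if_true] at hi
      omega
    · intro i j hij
      simp only [if_true] at hij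
      apply hN
      omega
  refine (Pool.Agent.J4H32.MV.facZ_mult _ hinj).congr fun q => ?_
  rw [factor_eq]

/-- For all `k`, `A`, `B` there are arbitrarily large `Y` such that for every `X` with `Y ≤ X ≤ Y ^ ((log log Y) ^ A)` there are
at most `X ^ k exp (-log X / (log log X) ^ (A + B + 4))` exceptional vectors. -/
theorem result (k A B : ℕ) (Y₀ : ℝ) : ∃ Y : ℝ, Y₀ ≤ Y ∧ ∀ X : ℕ, Y ≤ X → (X : ℝ) ≤ Y ^ (Real.log (Real.log Y) ^ A) →
    ((exceptional k B X).ncard : ℝ) ≤ (X : ℝ) ^ k * Real.exp (-(Real.log X / Real.log (Real.log X) ^ (A + B + 4))) := by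
  classical
  obtain ⟨Y, hY, hYX⟩ := Pool.Agent.J4H32.MV.mainGY k A B (fun _ => true) Y₀
  refine ⟨Y, hY, fun X h1 h2 => ?_⟩
  refine le_trans (le_of_eq ?_) (hYX X h1 h2)
  congr 1
  rw [← Set.ncard_coe_finset]
  congr 1
  ext N
  have hadm : Admissible N ↔ Pool.Agent.J4H81.GB.AdX (fun _ => true) N := by
    unfold Admissible Pool.Agent.J4H81.GB.AdX
    refine forall_congr' fun q => forall_congr' fun hq => ?_
    have hq0 : (q : ℤ) ≠ 0 := by exact_mod_cast hq.ne_zero
    constructor
    · rintro ⟨r, h1, h2⟩
      have hr0 : 0 ≤ r % q := Int.emod_nonneg r hq0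
      obtain ⟨s, hs⟩ := Int.eq_ofNat_of_zero_le hr0
      have hd : r = q * (r / q) + s := by
        have := Int.mul_ediv_add_emod r q
        omega
      refine ⟨s, fun j => ?_⟩
      refine Fin.cases ?_ (fun i => ?_) j
      · intro h3
        apply h1
        rw [hd]
        have e : (s : ℤ) + Pool.Agent.J4H81.GB.es (fun _ => true) N 0 = s := by
          show (s : ℤ) + 0 = s
          ring
        rw [e] at h3
        exact dvd_add (dvd_mul_right _ _) h3
      · intro h3
        apply h2 i
        have e0 : Pool.Agent.J4H81.GB.es (fun _ => true) N i.succ = -(N i : ℤ) := by simp [Pool.Agent.J4H81.GB.es]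
        rw [e0] at h3
        have e : (N i : ℤ) - r = -((s : ℤ) + -(N i : ℤ)) - q * (r / q) := by linarith
        rw [e]
        exact dvd_sub (h3.neg_right) (dvd_mul_right _ _)
    · rintro ⟨r, h1⟩
      refine ⟨(r : ℤ), ?_, fun i => ?_⟩
      · intro h3
        apply h1 0
        have e : (r : ℤ) + Pool.Agent.J4H81.GB.es (fun _ => true) N 0 = r := by
          show (r : ℤ) + 0 = r
          ring
        rw [e]
        exact h3
      · intro h3
        apply h1 i.succ
        have e0 : Pool.Agent.J4H81.GB.es (fun _ => true) N i.succ = -(N i : ℤ) := by simp [Pool.Agent.J4H81.GB.es]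
        rw [e0]
        have e : (r : ℤ) + -(N i : ℤ) = -((N i : ℤ) - r) := by ring
        rw [e]
        exact h3.neg_right
  have hcnt : (∀ i, 3 * X < N i ∧ N i ≤ 4 * X) → count N X = Pool.Agent.J4H32.MV.CnX (fun _ => true) N X := by
    intro hN
    unfold count Pool.Agent.J4H32.MV.CnX
    congr 1
    apply filter_congr
    intro p hp
    have hpX := (Finset.mem_Ioc.1 hp).2
    constructor
    · rintro ⟨h1, h2⟩ j
      refine Fin.cases ?_ (fun i => ?_) j
      · rw [Pool.Agent.J4H32.MV.fj_zero]
        exact h1
      · rw [Pool.Agent.J4H32.MV.fj_true N p (i := i) rfl]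
        obtain ⟨q, hq, he⟩ := h2 i
        have e : N i - p = q := by omega
        rw [e]
        exact hq
    · intro h
      refine ⟨by simpa only [Pool.Agent.J4H32.MV.fj_zero] using h 0, fun i => ?_⟩
      have h2 := h i.succ
      rw [Pool.Agent.J4H32.MV.fj_true N p (i := i) rfl] at h2
      have h3 := hN i
      exact ⟨N i - p, h2, by omega⟩
  have hexp : expected N X = Pool.Agent.J4H32.MV.SSZ (Pool.Agent.J4H81.GB.es (fun _ => true) N) * X / Real.log X ^ (k + 1) := by
    unfold expected Pool.Agent.J4H32.MV.SSZ
    congr 3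
    funext q
    exact factor_eq N q
  rw [Finset.mem_coe, Finset.mem_filter, Fintype.mem_piFinset, ← hadm, ← hexp]
  have hrg : ∀ i, N i ∈ Pool.Agent.J4H32.MV.rgX true X ↔ 3 * X < N i ∧ N i ≤ 4 * X := by
    intro i
    show N i ∈ Finset.Ioc (3 * X) (4 * X) ↔ _
    rw [Finset.mem_Ioc]
  simp only [exceptional, Set.mem_ofPred_eq]
  constructor
  · rintro ⟨h1, h2, h3⟩
    exact ⟨fun i => (hrg i).2 (h1 i), h2, by rw [← hcnt h1]; exact h3⟩
  · rintro ⟨h1, h2, h3⟩
    have h4 : ∀ i, 3 * X < N i ∧ N i ≤ 4 * X := fun i => (hrg i).1 (h1 i)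
    exact ⟨h4, h2, by rw [hcnt h4]; exact h3⟩

end Pool.Agent.Results.MP_dd84fd_nt.SimultaneousGoldbachFormula
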